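import Pool.Agent.TH188.ET.EightM

/-! # MP_d26ff6_al: the elementary type conjecture and symbols on subgroups of order eight

The elementary type conjecture is equivalent to the extension of product symbols defined on
subgroups with at most eight elements: a minimal counterexample has a product symbol on a subgroup
of order at most eight which does not extend. -/

set_option autoImplicit false

namespace Pool.Agent.Results.MP_d26ff6_al.OrderEightSymbols

open Pool.Agent.H315R3.ETC

/-- `χ` is a symbol on the subgroup `W` of `G`: on `W × G` it is additive in both variables, and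
`χ(w,b) = 0` for all `w ∈ W`, `b ∈ G` with `q(w,b) = 0`.  Only the values on `W × G` matter. -/
def IsSymbol (S : QData) (W : Subgroup S.G) (χ : S.G → S.G → ZMod 2) : Prop :=
  (∀ a ∈ W, ∀ b ∈ W, ∀ c, χ (a * b) c = χ a c + χ b c) ∧
  (∀ a ∈ W, ∀ b c, χ a (b * c) = χ a b + χ a c) ∧
  (∀ a ∈ W, ∀ b, S.q a b = S.zero → χ a b = 0)

/-- for subgroups `W` with at most eight elements and homomorphisms `l, f : G → Z/2` such that
`χ(w,b) = l(w) f(b)` is a symbol on `W` there is a symbol on `G` agreeing with `χ` on `W × G` -/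
def SmallSymbolsExtend (S : QData) : Prop :=
  ∀ (W : Subgroup S.G), Nat.card W ≤ 8 → ∀ (l f : S.G → ZMod 2), (∀ a b, l (a * b) = l a + l b) →
    (∀ a b, f (a * b) = f a + f b) → IsSymbol S W (fun w b => l w * f b) →
    ∃ χ' : S.G → S.G → ZMod 2, IsSymbol S ⊤ χ' ∧ ∀ w ∈ W, ∀ b, χ' w b = l w * f b

theorem result :
    -- minimal counterexamples
    (∀ S : QData, IsQuat S → Finite S.G →
      (∀ T : QData, IsQuat T → Finite T.G → Nat.card T.G < Nat.card S.G → Elem T) →
      (Elem S ↔ SmallSymbolsExtend S)) ∧
    -- structures of bounded order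
    (∀ N : ℕ, (∀ S : QData, IsQuat S → Finite S.G → Nat.card S.G ≤ N → Elem S) ↔
      ∀ S : QData, IsQuat S → Finite S.G → Nat.card S.G ≤ N → SmallSymbolsExtend S) ∧
    -- the conjecture
    ((∀ S : QData, IsQuat S → Finite S.G → Elem S) ↔
      ∀ S : QData, IsQuat S → Finite S.G → SmallSymbolsExtend S) := by
  have hconv : Pool.Agent.W622.ETG.S_CONV := Pool.Agent.W622.ETG.all_parts.2.2.2
  have hfwd : ∀ S : QData, IsQuat S → Elem S → SmallSymbolsExtend S := by
    intro S hS hE W _ l f _ _ hχ
    exact hconv S hS hE W _ hχ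
  have hstep : ∀ S : QData, IsQuat S → Finite S.G →
      (∀ T : QData, IsQuat T → Finite T.G → Nat.card T.G < Nat.card S.G → Elem T) →
      SmallSymbolsExtend S → Elem S := by
    intro S hS hf IH h
    refine Pool.Agent.TH188.ET8.step S hS hf ?_ IH
    intro W hW l f hl hff h0
    refine h W hW l f hl hff ⟨?_, ?_, h0⟩
    · intro a _ b _ c
      show l (a * b) * f c = l a * f c + l b * f c
      rw [hl, add_mul]
    · intro a _ b c
      show l a * f (b * c) = l a * f b + l a * f c
      rw [hff, mul_add]
  have hall : ∀ N : ℕ, (∀ S : QData, IsQuat S → Finite S.G → Nat.card S.G ≤ N →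
      SmallSymbolsExtend S) → ∀ n : ℕ, n ≤ N → ∀ S : QData, IsQuat S → Finite S.G →
      Nat.card S.G = n → Elem S := by
    intro N h n
    induction n using Nat.strong_induction_on with
    | _ n ih =>
      intro hn S hS hf hc
      refine hstep S hS hf ?_ (h S hS hf (hc.le.trans hn))
      intro T hT hTf hTc
      exact ih _ (hc ▸ hTc) ((hc ▸ hTc).le.trans hn) T hT hTf rfl
  refine ⟨?_, ?_, ?_⟩
  · intro S hS hf IH
    exact ⟨hfwd S hS, hstep S hS hf IH⟩
  · intro N
    exact ⟨fun h S hS hf hc => hfwd S hS (h S hS hf hc),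
      fun h S hS hf hc => hall N h _ hc S hS hf rfl⟩
  · exact ⟨fun h S hS hf => hfwd S hS (h S hS hf),
      fun h S hS hf => hall _ (fun T hT hTf _ => h T hT hTf) _ le_rfl S hS hf rfl⟩

end Pool.Agent.Results.MP_d26ff6_al.OrderEightSymbols
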