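import Pool.Agent.TH188.ET.Cor

/-! # MP_d26ff6_al: the elementary type conjecture for small structures

Finite quaternionic structures whose quaternions lie in a group with at most sixteen elements, or
whose value groups `{b : q(a,b) = 0}` all have index at most four, are of elementary type; more
generally it is enough that three-generated parts are small. -/

set_option autoImplicit false

namespace Pool.Agent.Results.MP_d26ff6_al.SmallTriples

open Pool.Agent.H315R3.ETC

universe v

/-- `Q_a`: the subgroup of `B` generated by all `β(a,b)`, `b ∈ G` (it is the set of these values,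
if `β` is additive in the second variable and `B` has exponent two) -/
def QGroup {G : Type} {B : Type v} [AddCommGroup B] (β : G → G → B) (a : G) : AddSubgroup B :=
  AddSubgroup.closure (Set.range (β a))

/-- the smallness condition at `x, y, z`: all groups `Q_p`, `p = x, y, z, xyz`, have at most four
elements, or one of them has index at most two in `Q_x + Q_y + Q_z` (that is, `u ∈ Q_p` or
`v ∈ Q_p` or `u + v ∈ Q_p` for all `u, v ∈ Q_x + Q_y + Q_z`) -/
def SmallAt {G : Type} [CommGroup G] {B : Type v} [AddCommGroup B] (β : G → G → B)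
    (x y z : G) : Prop :=
  (∀ p : G, p = x ∨ p = y ∨ p = z ∨ p = x * y * z → Nat.card (QGroup β p) ≤ 4) ∨
  ∃ p : G, (p = x ∨ p = y ∨ p = z ∨ p = x * y * z) ∧
    ∀ u ∈ QGroup β x ⊔ QGroup β y ⊔ QGroup β z, ∀ v ∈ QGroup β x ⊔ QGroup β y ⊔ QGroup β z,
      u ∈ QGroup β p ∨ v ∈ QGroup β p ∨ u + v ∈ QGroup β p

theorem result (S : QData) (hS : IsQuat S) (hfin : Finite S.G)
    -- the quaternions lie in a group `B` of exponent two in which `q` is additive
    {B : Type v} [AddCommGroup B] (hB : ∀ b : B, b + b = 0) (β : S.G → S.G → B)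
    (hmul : ∀ a b c, β a (b * c) = β a b + β a c)
    (hq : ∀ a b c d, β a b = β c d ↔ S.q a b = S.q c d) :
    (Finite B → Nat.card B ≤ 16 → Elem S) ∧
    ((∀ a : S.G, Nat.card S.G ≤ 4 * Nat.card {b : S.G // S.q a b = S.zero}) → Elem S) ∧
    ((∀ x y z : S.G, SmallAt β x y z) → Elem S) := by
  have main : (∀ x y z : S.G, SmallAt β x y z) → Elem S := fun h =>
    Pool.Agent.TH188.ETV.elem_of_small S hS hfin hB β hmul hq h
  refine ⟨fun hf hc => main fun x y z => ?_, fun h => main fun x y z => Or.inl fun p _ => ?_, main⟩
  · exact Pool.Agent.TH188.ETV.small_of_card hB hf hc β x y z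
  · obtain ⟨f, hf1, -, hf3⟩ := Pool.Agent.TH188.ETV.card_Qs β hmul p
    have h1 := f.ker.card_mul_index
    rw [hf3] at h1
    have q1 : S.q p 1 = S.zero := by
      have := (hS.qs3 p 1 1).1 rfl
      rwa [mul_one] at this
    have b1 : β p 1 = 0 := by
      have := hmul p 1 1
      rw [mul_one] at this
      exact left_eq_add.1 this
    have h2 : Nat.card f.ker = Nat.card {b : S.G // S.q p b = S.zero} := by
      refine Nat.card_congr ?_
      refine Equiv.subtypeEquiv Additive.toMul ?_
      intro b
      rw [AddMonoidHom.mem_ker, ← q1, ← hq, b1]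
      have : f b = β p b.toMul := hf1 b.toMul
      rw [this]
    have h3 : Nat.card (Additive S.G) = Nat.card S.G := rfl
    rw [h2, h3] at h1
    have h4 := h p
    have hpos : 0 < Nat.card {b : S.G // S.q p b = S.zero} := by
      haveI : Nonempty {b : S.G // S.q p b = S.zero} := ⟨⟨1, q1⟩⟩
      exact Nat.card_pos
    have h5 : Nat.card {b : S.G // S.q p b = S.zero} * Nat.card (QGroup β p) ≤
        Nat.card {b : S.G // S.q p b = S.zero} * 4 := by
      have h6 : Nat.card {b : S.G // S.q p b = S.zero} * Nat.card (QGroup β p) = Nat.card S.G := h1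
      rw [h6]
      omega
    exact Nat.le_of_mul_le_mul_left h5 hpos

end Pool.Agent.Results.MP_d26ff6_al.SmallTriples
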