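import Pool.Agent.TH673.VG.Crit
import Pool.Agent.TH673.VG.CritInd
import Pool.Agent.TH673.VG.ChainInd

/-! # MP_d26ff6_al: a value group criterion for elementary type

A finite quaternionic structure is of elementary type if and only if every subgroup `H ≠ G` has an
`a ∉ H` with `V(ah) ⊆ V(a) H` for all `h ∈ H`, where `V(a) = {x : q(a,x) = 0}`. -/

set_option autoImplicit false

namespace Pool.Agent.Results.MP_d26ff6_al.ValueGroupCriterion

open Pool.Agent.H315R3.ETC Pool.Agent.TH673.VG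

theorem result (S : QData) (hS : IsQuat S) (hfin : Finite S.G) :
    (Elem S ↔ ∀ H : Subgroup S.G, H ≠ ⊤ → Step S H) ∧
    (Elem S ↔ ∀ H : Subgroup S.G, H ≠ ⊤ → Common S H) ∧
    (Elem S ↔ ∀ H : Subgroup S.G, (∀ a : S.G, IndexTwo S a → a ∈ H) → 4 ≤ Nat.card H →
      8 ≤ H.index → StepTwo S H) ∧
    (Elem S ↔ Chain S ⊤) ∧
    (Elem S ↔ ∃ L : Subgroup S.G, Chain S L ∧ L.index ≤ 4) := by
  have h3 : Elem S → Chain S ⊤ := fun h => chain_of_goodAll (goodAll_of_elem hS h)
  have h4 : (⊤ : Subgroup S.G).index ≤ 4 := by rw [Subgroup.index_top]; norm_num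
  have h1 : Elem S → ∀ H : Subgroup S.G, H ≠ ⊤ → Step S H := stepAll_of_elem hS
  have h2 : (∀ H : Subgroup S.G, H ≠ ⊤ → Step S H) → Elem S := fun h =>
    elem_of_step hS fun H hH _ => stepTwo_of_step (h H hH)
  refine ⟨⟨h1, h2⟩, ⟨fun h H hH => (step_iff_common hS H).1 (h1 h H hH),
    fun h => h2 fun H hH => (step_iff_common hS H).2 (h H hH)⟩,
    ⟨fun h H _ _ hi => ?_, fun h => ?_⟩,
    ⟨h3, fun h => elem_of_chain hS h h4⟩,
    ⟨fun h => ⟨⊤, h3 h, h4⟩, fun ⟨_, hL, hi⟩ => elem_of_chain hS hL hi⟩⟩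
  · refine stepTwo_of_step (h1 h H ?_)
    rintro rfl
    rw [Subgroup.index_top] at hi
    omega
  · refine elem_of_step hS fun H hH hI => ?_
    by_cases hi : 8 ≤ H.index
    · by_cases hc : 4 ≤ Nat.card H
      · exact h H hI hc hi
      · exact stepTwo_of_card hS H hH (by omega)
    · exact stepTwo_of_step (step_of_index hS H hH (by omega))

end Pool.Agent.Results.MP_d26ff6_al.ValueGroupCriterion
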