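import Pool.Agent.TH673.VG.Sym
import Pool.Agent.TH673.VG.Ind
import Pool.Agent.TH673.VG.IdxTwo

/-! # MP_d26ff6_al: structures in which products of value groups are value groups

A finite quaternionic structure is a direct product of structures with at most two quaternions if
and only if the product of any two of its value groups `V(a) = {x : q(a,x) = 0}` is a value group;
six more characterisations are given, and these structures are of elementary type. -/

set_option autoImplicit false

namespace Pool.Agent.Results.MP_d26ff6_al.ValueGroupProducts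

open Pool.Agent.H315R3.ETC Pool.Agent.TH673.VG

theorem result (S : QData) (hS : IsQuat S) (hfin : Finite S.G) :
    (ProdTwo S ↔ ProductsClosed S) ∧
    (ProdTwo S ↔ TripleProducts S ∧ IndexTwoAbove S) ∧
    (ProdTwo S ↔ TripleProducts S ∧ MaximalDichotomy S) ∧
    (ProdTwo S ↔ TripleProducts S ∧ Elem S) ∧
    (ProdTwo S ↔ UniversalBelow S) ∧
    (ProdTwo S ↔ UniversalKernels S) ∧
    (ProdTwo S ↔ IdxGroup S = ⊤) := by
  have key : UniversalKernels S → Elem S ∧ ProdTwo S := fun h =>
    ⟨elem_of_kernels hS hfin h, prodTwo_of_elem hS (elem_of_kernels hS hfin h) h⟩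
  have h1 : ProductsClosed S → UniversalBelow S := fun h => below_of_star hS (star_of_closed hS h)
  have h2 : TripleProducts S ∧ IndexTwoAbove S → UniversalBelow S := fun h =>
    below_of_star hS (star_of_index hS h.1 h.2)
  have h2' : TripleProducts S ∧ MaximalDichotomy S → UniversalBelow S := fun h =>
    below_of_star hS (star_of_dichotomy hS h.1 h.2)
  have h3 : UniversalBelow S → UniversalKernels S := kernels_of_below
  have h4 : ProdTwo S → UniversalBelow S := fun h => h1 (good_of_prodTwo h).closed
  exact ⟨⟨fun h => (good_of_prodTwo h).closed, fun h => (key (h3 (h1 h))).2⟩,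
    ⟨fun h => ⟨(good_of_prodTwo h).triple, (good_of_prodTwo h).index⟩,
      fun h => (key (h3 (h2 h))).2⟩,
    ⟨fun h => ⟨(good_of_prodTwo h).triple, dichotomy_of_closed hS (good_of_prodTwo h).closed⟩,
      fun h => (key (h3 (h2' h))).2⟩,
    ⟨fun h => ⟨(good_of_prodTwo h).triple, (key (h3 (h4 h))).1⟩,
      fun h => prodTwo_of_elem_tp hS h.2 h.1⟩,
    ⟨h4, fun h => (key (h3 h)).2⟩, ⟨fun h => h3 (h4 h), fun h => (key h).2⟩,
    ⟨gen_of_prodTwo, fun h => prodTwo_of_elem_tp hS (elem_of_core hS (by
      rw [core_top_of_gen h, Subgroup.index_top]; norm_num)) (triple_of_gen hS h)⟩⟩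

end Pool.Agent.Results.MP_d26ff6_al.ValueGroupProducts
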